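import Pool.Agent.Lib.MP_1b4d75_gt.Final

/-!
# A positively curved 5-manifold with a free isometric action of `S³`

The product `S² × S³` carries a smooth Riemannian metric of positive sectional curvature for which
the free action `q ⬝ (y, z) = (y, q z)` of the group `S³` of unit quaternions is isometric.
-/

set_option autoImplicit false

open scoped Manifold ContDiff

namespace Pool.Agent.Results.MP_1b4d75_gt.PositiveS2S3

open PosCurv _root_.MP_1b4d75_gt

theorem result : ∃ g : RMetric IM M5,
    ClosedPositivelyCurved 5 g ∧ FreeIsometricAction (𝓡 3) g act :=
  exists_closed_metric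

end Pool.Agent.Results.MP_1b4d75_gt.PositiveS2S3
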